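import Pool.Agent.Lib.MP_ff9d8c_ag.Final

set_option autoImplicit false

namespace Pool.Agent.Results.MP_ff9d8c_ag.SpanBeyondBoundary

open Pool.Agent.Lib.MP_ff9d8c_ag

/-- For a general tensor `T` of format `(a+1, b+1, a+b+2)`, `a, b ≥ 2`, the span of the rank one
tensors of singular vector triples is the critical space, except for the formats `(3,3,6)`,
`(3,4,7)`, `(3,5,8)` (up to exchanging the first two factors), where it is a proper subspace of
the stated codimension. -/
theorem result (a b : ℕ) (ha : 2 ≤ a) (hb : 2 ≤ b) :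
    ∃ P : MvPolynomial (Fin (a + 1) × Fin (b + 1) × Fin (a + b + 2)) ℂ, P ≠ 0 ∧
      ∀ T : Tensor (a + 1) (b + 1) (a + b + 2), MvPolynomial.eval T P ≠ 0 →
        (¬ (min a b = 2 ∧ max a b ≤ 4) → spanZ T = critSpace T) ∧
        (min a b = 2 ∧ max a b ≤ 4 → spanZ T < critSpace T ∧
          (Module.finrank ℂ (critSpace T) : ℤ) - (Module.finrank ℂ (spanZ T) : ℤ) =
            ((a + b - 1).choose a : ℤ) * ((a + b - 1).choose b : ℤ) -
              ((a + b - 2).choose a : ℤ) * ((a + b - 2).choose b : ℤ) * ((a + b + 2 : ℕ) : ℤ)) := by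
  by_cases h : min a b = 2 ∧ max a b ≤ 4
  · have key : ∀ c : ℕ, 0 < c → (c : ℤ) = ((a + b - 1).choose a : ℤ) * ((a + b - 1).choose b : ℤ) -
        ((a + b - 2).choose a : ℤ) * ((a + b - 2).choose b : ℤ) * ((a + b + 2 : ℕ) : ℤ) →
        Generic (fun T : Tensor (a + 1) (b + 1) (a + b + 2) =>
          Module.finrank ℂ (critSpace T) = Module.finrank ℂ (spanZ T) + c) →
        Generic (fun T : Tensor (a + 1) (b + 1) (a + b + 2) =>
          (¬ (min a b = 2 ∧ max a b ≤ 4) → spanZ T = critSpace T) ∧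
          (min a b = 2 ∧ max a b ≤ 4 → spanZ T < critSpace T ∧
            (Module.finrank ℂ (critSpace T) : ℤ) - (Module.finrank ℂ (spanZ T) : ℤ) =
              ((a + b - 1).choose a : ℤ) * ((a + b - 1).choose b : ℤ) -
                ((a + b - 2).choose a : ℤ) * ((a + b - 2).choose b : ℤ) * ((a + b + 2 : ℕ) : ℤ))) := by
      intro c hc hc' hG
      refine hG.mono fun T hT => ⟨fun h' => absurd h h', fun _ => ⟨?_, ?_⟩⟩
      · refine lt_of_le_of_ne (spanZ_le T) fun h0 => ?_
        rw [h0] at hT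
        omega
      · rw [← hc', hT]
        push_cast
        ring
    have h1 : (a = 2 ∧ b = 2) ∨ (a = 2 ∧ b = 3) ∨ (a = 2 ∧ b = 4) ∨ (a = 3 ∧ b = 2) ∨
        (a = 4 ∧ b = 2) := by omega
    rcases h1 with ⟨rfl, rfl⟩ | ⟨rfl, rfl⟩ | ⟨rfl, rfl⟩ | ⟨rfl, rfl⟩ | ⟨rfl, rfl⟩
    · exact key 3 (by norm_num) (by decide) codim_3_3
    · exact key 3 (by norm_num) (by decide) codim_3_4
    · exact key 2 (by norm_num) (by decide) codim_3_5
    · exact key 3 (by norm_num) (by decide) (generic_dim_swap codim_3_4)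
    · exact key 2 (by norm_num) (by decide) (generic_dim_swap codim_3_5)
  · have h1 : Generic (fun T : Tensor (a + 1) (b + 1) (a + b + 2) => spanZ T = critSpace T) := by
      rcases le_total a b with hab | hab
      · exact generic_eq (by omega) (by omega) (by omega)
      · exact generic_eq_swap (generic_eq (by omega) (by omega) (by omega))
    exact h1.mono fun T hT => ⟨fun _ => hT, fun h' => absurd h' h⟩

end Pool.Agent.Results.MP_ff9d8c_ag.SpanBeyondBoundary
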