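import Pool.Agent.Lib.MP_ff9d8c_ag.WideB

set_option autoImplicit false

namespace Pool.Agent.Results.MP_ff9d8c_ag.SpanDimension

open Pool.Agent.Lib.MP_ff9d8c_ag

/-- For a general tensor of format `(p, q, r)` beyond the boundary with `r ≤ ⌊p/2⌋⌊q/2⌋` or
`r ≥ pq - ⌊p/2⌋⌊q/2⌋`, the dimension of the span of the singular vector triples is the smaller of
the dimension of the critical space and `C(p+1,2) C(q+1,2) - C(p,2) - C(q,2)`. -/
theorem result (p q r : ℕ) (hp : 1 ≤ p) (hq : 1 ≤ q) (hr : p + q ≤ r)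
    (h : r ≤ (p / 2) * (q / 2) ∨ p * q ≤ r + (p / 2) * (q / 2)) :
    ∃ P : MvPolynomial (Fin p × Fin q × Fin r) ℂ, P ≠ 0 ∧
      ∀ T : Tensor p q r, MvPolynomial.eval T P ≠ 0 →
        (Module.finrank ℂ (spanZ T) : ℤ) = min (Module.finrank ℂ (critSpace T) : ℤ)
          (((p + 1).choose 2 : ℤ) * ((q + 1).choose 2 : ℤ) - (p.choose 2 : ℤ) - (q.choose 2 : ℤ)) :=
  (generic_wide hp hq hr).mono fun T hT => by
    have h1 := Submodule.finrank_mono (spanZ_le T)
    have h2 := hT.2.1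
    rw [← Nat.cast_mul]
    rcases h with h | h
    · have h3 := hT.2.2.2.1 h
      omega
    · have h3 := hT.2.2.1 h
      omega

end Pool.Agent.Results.MP_ff9d8c_ag.SpanDimension
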