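import Pool.Agent.Lib.MP_ff9d8c_ag.WideB

set_option autoImplicit false

namespace Pool.Agent.Results.MP_ff9d8c_ag.TensorInSpan

open Pool.Agent.Lib.MP_ff9d8c_ag

/-- A general tensor of any format `(p, q, r)` beyond the boundary (`r ≥ p + q`) lies in the span
of the rank one tensors of its singular vector triples. -/
theorem result (p q r : ℕ) (hp : 1 ≤ p) (hq : 1 ≤ q) (hr : p + q ≤ r) :
    ∃ P : MvPolynomial (Fin p × Fin q × Fin r) ℂ, P ≠ 0 ∧
      ∀ T : Tensor p q r, MvPolynomial.eval T P ≠ 0 → T ∈ spanZ T :=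
  (generic_wide hp hq hr).mono fun _ h => h.1

end Pool.Agent.Results.MP_ff9d8c_ag.TensorInSpan
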